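import Pool.Agent.Helper46.RO.Base

/-!
# Packet RO-P3: a connected bounded slab gives finite generation of the kernel
-/

namespace Pool.Agent.Helper75.RO

open Pool.Agent.Helper46.RO

universe u

theorem pi_one {L : Type u} [Group L] {n : ℕ} {π : L → Fin n → ℤ} (hπ : IsHomZ π) : π 1 = 0 := by
  have h := hπ 1 1
  rw [mul_one] at h
  exact left_eq_add.1 h

theorem pi_inv {L : Type u} [Group L] {n : ℕ} {π : L → Fin n → ℤ} (hπ : IsHomZ π) (a : L) :
    π a⁻¹ = - π a := by
  have h := hπ a a⁻¹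
  rw [mul_inv_cancel, pi_one hπ] at h
  exact (neg_eq_of_add_eq_zero_right h.symm).symm

theorem nrm_zero {n : ℕ} : nrm (0 : Fin n → ℤ) = 0 := by
  simp [nrm]

theorem finite_ball (n : ℕ) (R : ℤ) : {b : Fin n → ℤ | nrm b ≤ R}.Finite := by
  refine (Set.finite_Icc (fun _ : Fin n => -R) (fun _ : Fin n => R)).subset ?_
  intro b hb
  have hb' : nrm b ≤ R := hb
  have key : ∀ i, b i ^ 2 ≤ R := by
    intro i
    refine le_trans ?_ hb'
    unfold nrm
    exact Finset.single_le_sum (f := fun i => b i ^ 2) (fun j _ => sq_nonneg (b j))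
      (Finset.mem_univ i)
  refine ⟨fun i => ?_, fun i => ?_⟩
  · have := key i
    change -R ≤ b i
    nlinarith [sq_nonneg (b i), sq_nonneg (b i + 1)]
  · have := key i
    change b i ≤ R
    nlinarith [sq_nonneg (b i), sq_nonneg (b i - 1)]

/-- A section of the map `π` on its range, with the value `1` at `0`. -/
theorem exists_section {L : Type u} [Group L] {n : ℕ} {π : L → Fin n → ℤ} (hπ : IsHomZ π) :
    ∃ σ : (Fin n → ℤ) → L, σ 0 = 1 ∧ ∀ g, π (σ (π g)) = π g := by
  classical
  refine ⟨fun b => if b = 0 then 1 else if h : ∃ g, π g = b then h.choose else 1, by simp, ?_⟩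
  intro g
  by_cases h0 : π g = 0
  · simp only [h0, if_true]
    exact pi_one hπ
  · have h : ∃ g', π g' = π g := ⟨g, rfl⟩
    simp only [h0, if_false, dif_pos h]
    exact h.choose_spec

theorem P3 : GoalP3.{u} := by
  intro L _ X n π hπ hX hR
  obtain ⟨R, hR⟩ := hR
  set R' : ℤ := max R 0 with hR'
  have hR0 : 0 ≤ R' := le_max_right _ _
  have hRR : R ≤ R' := le_max_left _ _
  -- descent
  have desc : ∀ (m : L), π m = 0 → ∀ j : ℕ, Conn X {k | nrm (π k) ≤ R' + j} 1 m →
      Conn X {k | nrm (π k) ≤ R'} 1 m := by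
    intro m hm j
    induction j with
    | zero =>
      intro h
      simpa using h
    | succ j ih =>
      intro h
      refine ih ?_
      have hj : (0 : ℤ) ≤ (j : ℤ) := Int.natCast_nonneg j
      refine hR (R' + j) (by omega) 1 m ?_ ?_ ?_
      · rw [pi_one hπ, nrm_zero]; omega
      · rw [hm, nrm_zero]; omega
      · refine h.mono ?_
        intro k hk
        have hk' : nrm (π k) ≤ R' + ((j + 1 : ℕ) : ℤ) := hk
        change nrm (π k) ≤ R' + j + 1
        push_cast at hk'
        omega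
  have conn : ∀ m : L, π m = 0 → Conn X {k | nrm (π k) ≤ R'} 1 m := by
    intro m hm
    obtain ⟨F, _, _, hF⟩ := exists_conn_finset hX 1 m
    refine desc m hm (F.sup (fun k => (nrm (π k)).toNat)) (hF.mono ?_)
    intro k hk
    have h1 : (nrm (π k)).toNat ≤ F.sup (fun k => (nrm (π k)).toNat) :=
      Finset.le_sup (f := fun k => (nrm (π k)).toNat) (Finset.mem_coe.1 hk)
    change nrm (π k) ≤ R' + _
    omega
  obtain ⟨σ, hσ0, hσ⟩ := exists_section hπ
  set T : Set L := (fun p : (Fin n → ℤ) × L => σ p.1 * p.2 * (σ (p.1 + π p.2))⁻¹) ''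
    (({b | nrm b ≤ R'} ∩ Set.range π) ×ˢ (X : Set L)) with hT
  have hTfin : T.Finite :=
    (((finite_ball n R').subset Set.inter_subset_left).prod X.finite_toSet).image _
  rw [Subgroup.fg_iff]
  refine ⟨T, le_antisymm ?_ ?_, hTfin⟩
  · rw [Subgroup.closure_le]
    rintro _ ⟨⟨b, x⟩, ⟨⟨_, g, hg⟩, _⟩, rfl⟩
    change π g = b at hg
    change π (σ b * x * (σ (b + π x))⁻¹) = 0
    have h1 : π (σ b) = b := by rw [← hg]; exact hσ g
    have h2 : b + π x = π (g * x) := by rw [hπ]; rw [← hg]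
    have h3 : π (σ (b + π x)) = b + π x := by rw [h2]; exact hσ _
    rw [hπ, hπ, pi_inv hπ, h1, h3, add_neg_cancel]
  · intro m hm
    have hm0 : π m = 0 := hm
    have key : ∀ k, Conn X {k | nrm (π k) ≤ R'} 1 k → k * (σ (π k))⁻¹ ∈ Subgroup.closure T := by
      intro k hk
      induction hk with
      | refl =>
        rw [pi_one hπ, hσ0, inv_one, mul_one]
        exact Subgroup.one_mem _
      | @tail b c _ hbc ih =>
        have hx : b⁻¹ * c ∈ X := hbc.2.2
        have e1 : c = b * (b⁻¹ * c) := by group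
        have e2 : π c = π b + π (b⁻¹ * c) := by rw [← hπ, ← e1]
        have e3 : c * (σ (π c))⁻¹ = (b * (σ (π b))⁻¹) *
            (σ (π b) * (b⁻¹ * c) * (σ (π b + π (b⁻¹ * c)))⁻¹) := by
          rw [e2]; group
        rw [e3]
        refine Subgroup.mul_mem _ ih (Subgroup.subset_closure ?_)
        exact ⟨(π b, b⁻¹ * c), ⟨⟨hbc.1, b, rfl⟩, hx⟩, rfl⟩
    have h := key m (conn m hm0)
    rwa [hm0, hσ0, inv_one, mul_one] at h

end Pool.Agent.Helper75.RO
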